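import Pool.Agent.H539R3.SCC.Pos

/-!
# Infinitely many formulas, at most one of which is refuted in a given MTL-chain
-/

set_option autoImplicit false

namespace Pool.Agent.Y528.SCC

open Pool.Agent.H539R3.SC MTLAlgebra

universe u

/-! ### the formulas -/

/-- `x ↔ ¬x` for the variable `0`; `y ↔ (y → x)` for the variables `j + 1` and `j` -/
def fF : ℕ → Fm
  | 0 => (Fm.var 0).iff (Fm.var 0).neg
  | j + 1 => (Fm.var (j + 1)).iff ((Fm.var (j + 1)).imp (.var j))

/-- `x → y ^ 2` for the variables `j` and `j + 1` -/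
def fG (j : ℕ) : Fm := (Fm.var j).imp ((Fm.var (j + 1)).pow 2)

/-- good through level `j` -/
def fH : ℕ → Fm
  | 0 => fF 0
  | j + 1 => ((fH j).conj (fF (j + 1))).conj (fG j)

/-- good through level `i`, bad at the next level -/
def fE (i : ℕ) : Fm := ((fH i).conj (fF (i + 1))).conj (((fG i).pow (2 ^ (i + 1) + 1)).neg)

/-- the exponent -/
def exM (i : ℕ) : ℕ := (6 * i + 11) * (2 ^ (i + 1) + 1) + 1

/-- the formulas -/
def fPhi (i : ℕ) : Fm := ((fE i).pow (exM i)).neg

theorem exM_mono {i j : ℕ} (h : i ≤ j) : exM i ≤ exM j := by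
  unfold exM
  have h1 : 2 ^ (i + 1) ≤ 2 ^ (j + 1) := Nat.pow_le_pow_right (by norm_num) (by omega)
  have h2 : (6 * i + 11) * (2 ^ (i + 1) + 1) ≤ (6 * j + 11) * (2 ^ (j + 1) + 1) :=
    Nat.mul_le_mul (by omega) (by omega)
  omega

section Chain

variable {A : Type u} [MTLAlgebra A]

theorem unique0 (tot : ∀ x y : A, x ≤ y ∨ y ≤ x) {c x x' : A} (h1 : c ≤ res (ng x) x)
    (h2 : c ≤ res x' (ng x')) : c ^ 2 * x' ≤ x := by
  rw [le_res] at h1 h2
  rcases tot x x' with h | h
  · exact fix_unique h1 h2 h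
  · exact (mul_le_right _ _).trans h

theorem unique1 (tot : ∀ x y : A, x ≤ y ∨ y ≤ x) {c x x' y y' : A} {a : ℕ}
    (hx : c ^ a * x' ≤ x) (hy : c ≤ res (res y x) y) (hy' : c ≤ res y' (res y' x')) :
    c ^ (a + 2) * y' ≤ y := by
  rw [le_res] at hy hy'
  rcases tot y y' with h | h
  · have h1 : c * y' * y' ≤ x' := le_res.1 hy'
    have h2 : c * y' * y ≤ x' := (mul_mono le_rfl h).trans h1
    have h3 : c ^ (a + 1) * y' ≤ res y x := by
      refine le_res.2 ?_
      calc c ^ (a + 1) * y' * y = c ^ a * (c * y' * y) := by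
            rw [pow_succ]; ac_rfl
        _ ≤ c ^ a * x' := mul_mono le_rfl h2
        _ ≤ x := hx
    calc c ^ (a + 2) * y' = c * (c ^ (a + 1) * y') := by
          rw [← mul_assoc, ← pow_succ']
      _ ≤ c * res y x := mul_mono le_rfl h3
      _ ≤ y := hy
  · exact (mul_le_right _ _).trans h

/-- the elements with the numbers `j` agree approximately -/
theorem unique (tot : ∀ x y : A, x ≤ y ∨ y ≤ x) {v w : ℕ → A} {c : A} (j : ℕ)
    (hv : ∀ k ≤ j, c ≤ eval v (fF k)) (hw : ∀ k ≤ j, c ≤ eval w (fF k)) :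
    c ^ (2 * j + 2) * w j ≤ v j := by
  induction j with
  | zero =>
    have h1 := hv 0 le_rfl
    have h2 := hw 0 le_rfl
    simp only [fF, Fm.iff, Fm.neg, eval] at h1 h2
    exact unique0 tot (conj_le h1).2 (conj_le h2).1
  | succ j ih =>
    have h0 := ih (fun k hk => hv k (by omega)) (fun k hk => hw k (by omega))
    have h1 := hv (j + 1) le_rfl
    have h2 := hw (j + 1) le_rfl
    simp only [fF, Fm.iff, eval] at h1 h2
    have := unique1 tot h0 (conj_le h1).2 (conj_le h2).1
    rwa [show 2 * j + 2 + 2 = 2 * (j + 1) + 2 by ring] at this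

theorem fH_mono {v : ℕ → A} {c : A} {i j : ℕ} (hij : i ≤ j) (h : c ≤ eval v (fH j)) :
    c ≤ eval v (fH i) := by
  induction j with
  | zero =>
    have : i = 0 := by omega
    subst this
    exact h
  | succ j ih =>
    rcases Nat.lt_or_ge j i with hlt | hge
    · have : i = j + 1 := by omega
      subst this
      exact h
    · exact ih hge (conj_le (conj_le h).1).1

theorem fF_of_fH {v : ℕ → A} {c : A} {j : ℕ} (h : c ≤ eval v (fH j)) :
    ∀ k ≤ j, c ≤ eval v (fF k) := by
  intro k hk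
  have h1 := fH_mono hk h
  cases k with
  | zero => exact h1
  | succ k => exact (conj_le (conj_le h1).1).2

/-- the key inequality -/
theorem key' (tot : ∀ x y : A, x ≤ y ∨ y ≤ x) {v w : ℕ → A} {c : A} {i j : ℕ} (hij : i < j)
    (hv : c ≤ eval v (fE i)) (hw : c ≤ eval w (fE j)) : c ^ exM i ≤ ⊥ := by
  obtain ⟨h1, h3⟩ := conj_le hv
  obtain ⟨h1, h2⟩ := conj_le h1
  obtain ⟨k1, -⟩ := conj_le hw
  obtain ⟨k1, -⟩ := conj_le k1
  have k2 : c ≤ eval w (fH (i + 1)) := fH_mono hij k1
  have fv : ∀ k ≤ i + 1, c ≤ eval v (fF k) := by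
    intro k hk
    rcases Nat.lt_or_ge i k with h | h
    · have : k = i + 1 := by omega
      subst this
      exact h2
    · exact fF_of_fH h1 k h
  have fw := fF_of_fH k2
  have e1 : c ^ (2 * i + 2) * v i ≤ w i := unique tot i (fun k hk => fw k (by omega))
    (fun k hk => fv k (by omega))
  have e2 : c ^ (2 * (i + 1) + 2) * w (i + 1) ≤ v (i + 1) := unique tot (i + 1) fv fw
  have e3 : c * w i ≤ w (i + 1) ^ 2 := by
    have h := (conj_le k2).2
    simp only [fG, eval, eval_pow] at h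
    exact le_res.1 h
  have e4 : c ^ (6 * i + 11) ≤ eval v (fG i) := by
    simp only [fG, eval, eval_pow]
    refine le_res.2 ?_
    calc c ^ (6 * i + 11) * v i = c ^ (4 * i + 8) * (c * (c ^ (2 * i + 2) * v i)) := by
          rw [← mul_assoc, ← mul_assoc, ← pow_succ, ← pow_add]
          congr 2
          ring
      _ ≤ c ^ (4 * i + 8) * (c * w i) := mul_mono le_rfl (mul_mono le_rfl e1)
      _ ≤ c ^ (4 * i + 8) * w (i + 1) ^ 2 := mul_mono le_rfl e3
      _ = (c ^ (2 * (i + 1) + 2) * w (i + 1)) ^ 2 := by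
          rw [mul_pow, ← pow_mul]
          congr 2
          ring
      _ ≤ v (i + 1) ^ 2 := pow_mono_left e2 2
  simp only [Fm.neg, eval, eval_pow] at h3
  have e5 := le_res.1 h3
  calc c ^ exM i = c * (c ^ (6 * i + 11)) ^ (2 ^ (i + 1) + 1) := by
        rw [← pow_mul, ← pow_succ']; rfl
    _ ≤ c * eval v (fG i) ^ (2 ^ (i + 1) + 1) := mul_mono le_rfl (pow_mono_left e4 _)
    _ ≤ ⊥ := e5

/-- in a chain at most one of the formulas is refuted -/
theorem taut_or' (tot : ∀ x y : A, x ≤ y ∨ y ≤ x) {i j : ℕ} (hij : i < j) (v w : ℕ → A) :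
    eval v (fPhi i) = 1 ∨ eval w (fPhi j) = 1 := by
  rcases tot (eval v (fE i)) (eval w (fE j)) with h | h
  · left
    have := key' tot hij le_rfl h
    simp only [fPhi, Fm.neg, eval, eval_pow]
    exact res_eq_one.2 this
  · right
    have := key' tot hij h le_rfl
    simp only [fPhi, Fm.neg, eval, eval_pow]
    exact res_eq_one.2 ((pow_le_pow_of_le' (exM_mono hij.le)).trans this)

end Chain

/-! ### the chains -/

/-- the product on `{0, …, 2 m}`: `max (a + b - 2 m) 0`, and one less if `a` and `b` are odd -/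
def dmul (m a b : ℕ) : ℕ := if a % 2 = 1 ∧ b % 2 = 1 then a + b - (2 * m + 1) else a + b - 2 * m

theorem dmul_le {m a b : ℕ} (ha : a ≤ 2 * m) (_hb : b ≤ 2 * m) : dmul m a b ≤ 2 * m := by
  unfold dmul; split_ifs <;> omega

theorem dmul_comm (m a b : ℕ) : dmul m a b = dmul m b a := by
  unfold dmul; split_ifs <;> omega

theorem dmul_assoc {m a b c : ℕ} (ha : a ≤ 2 * m) (hb : b ≤ 2 * m) (hc : c ≤ 2 * m) :
    dmul m (dmul m a b) c = dmul m a (dmul m b c) := by
  unfold dmul
  rcases Nat.mod_two_eq_zero_or_one a with h1 | h1 <;>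
  rcases Nat.mod_two_eq_zero_or_one b with h2 | h2 <;>
  rcases Nat.mod_two_eq_zero_or_one c with h3 | h3 <;>
  simp only [h1, h2, h3] <;> simp <;> (try split_ifs) <;> omega

theorem dmul_one {m a : ℕ} (ha : a ≤ 2 * m) : dmul m a (2 * m) = a := by
  unfold dmul; split_ifs <;> omega

theorem dmul_res {m x y z : ℕ} (hx : x ≤ 2 * m) (hy : y ≤ 2 * m) (hz : z ≤ 2 * m) :
    dmul m z x ≤ y ↔ z ≤ 2 * m - dmul m x (2 * m - y) := by
  unfold dmul
  rcases Nat.mod_two_eq_zero_or_one x with h1 | h1 <;>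
  rcases Nat.mod_two_eq_zero_or_one y with h2 | h2 <;>
  rcases Nat.mod_two_eq_zero_or_one z with h3 | h3 <;>
  split_ifs <;> omega

/-- the chain with `2 m + 1` elements -/
def DC (m : ℕ) : Type := Fin (2 * m + 1)

namespace DC

variable {m : ℕ}

instance : LinearOrder (DC m) := inferInstanceAs (LinearOrder (Fin (2 * m + 1)))
instance : Fintype (DC m) := inferInstanceAs (Fintype (Fin (2 * m + 1)))

/-- the element with number `a` -/
def el (a : ℕ) (h : a ≤ 2 * m) : DC m := (⟨a, by omega⟩ : Fin (2 * m + 1))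
/-- the number of an element -/
def nr (x : DC m) : ℕ := Fin.val (n := 2 * m + 1) x

theorem nr_le (x : DC m) : nr x ≤ 2 * m := by
  have := Fin.isLt (n := 2 * m + 1) x
  unfold nr
  omega

theorem nr_el (a : ℕ) (h : a ≤ 2 * m) : nr (el a h) = a := rfl

theorem ext {x y : DC m} (h : nr x = nr y) : x = y := Fin.ext (n := 2 * m + 1) h

theorem le_iff {x y : DC m} : x ≤ y ↔ nr x ≤ nr y := Iff.rfl

instance : BoundedOrder (DC m) where
  top := el (2 * m) le_rfl
  le_top x := le_iff.2 (nr_le x)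
  bot := el 0 (Nat.zero_le _)
  bot_le x := le_iff.2 (Nat.zero_le _)

theorem nr_bot : nr (⊥ : DC m) = 0 := rfl

instance : CommMonoid (DC m) where
  mul x y := el (dmul m (nr x) (nr y)) (dmul_le (nr_le x) (nr_le y))
  mul_assoc x y z := ext (dmul_assoc (nr_le x) (nr_le y) (nr_le z))
  one := el (2 * m) le_rfl
  one_mul x := ext (by
    change dmul m (2 * m) (nr x) = nr x
    rw [dmul_comm]; exact dmul_one (nr_le x))
  mul_one x := ext (dmul_one (nr_le x))
  mul_comm x y := ext (dmul_comm _ _ _)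

theorem nr_mul (x y : DC m) : nr (x * y) = dmul m (nr x) (nr y) := rfl
theorem nr_one : nr (1 : DC m) = 2 * m := rfl

instance : MTLAlgebra (DC m) :=
  MTLAlgebra.ofChain (DC m) (fun x y => el (2 * m - dmul m (nr x) (2 * m - nr y)) (Nat.sub_le _ _))
    (fun x y z => dmul_res (nr_le x) (nr_le y) (nr_le z)) rfl

theorem nr_res (x y : DC m) : nr (res x y) = 2 * m - dmul m (nr x) (2 * m - nr y) := rfl

theorem nr_ng (x : DC m) : nr (ng x) = 2 * m - nr x := by
  have h := nr_le x
  rw [ng, nr_res, nr_bot]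
  unfold dmul
  split_ifs <;> omega

theorem invol (x : DC m) : ng (ng x) = x := by
  refine ext ?_
  have h := nr_le x
  rw [nr_ng, nr_ng]
  omega

end DC

open DC

/-- the valuation: variable `j` has the value `2 m - 2 ^ (i - j)`, where `m = 2 ^ i` -/
def val (i : ℕ) : ℕ → DC (2 ^ i) := fun j => el (2 * 2 ^ i - 2 ^ (i - j)) (Nat.sub_le _ _)

theorem nr_val (i j : ℕ) : nr (val i j) = 2 * 2 ^ i - 2 ^ (i - j) := rfl

theorem eval_fF (i : ℕ) (hi : 1 ≤ i) : ∀ j ≤ i, eval (val i) (fF j) = 1 := by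
  intro j hj
  cases j with
  | zero =>
    have h1 : ng (val i 0) = val i 0 := by
      refine DC.ext ?_
      rw [nr_ng, nr_val, Nat.sub_zero]
      omega
    have h2 : res (val i 0) ⊥ = val i 0 := h1
    simp only [fF, Fm.iff, Fm.neg, eval, h2, res_eq_one.2 le_rfl, mul_one]
  | succ j =>
    have h1 : res (val i (j + 1)) (val i j) = val i (j + 1) := by
      refine DC.ext ?_
      rw [nr_res, nr_val, nr_val]
      have e1 : 2 ^ (i - j) = 2 * 2 ^ (i - (j + 1)) := by
        rw [← pow_succ']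
        congr 1
        omega
      have e2 : 2 ^ (i - (j + 1)) ≤ 2 ^ i := Nat.pow_le_pow_right (by norm_num) (by omega)
      have e3 : 2 * 2 ^ (i - (j + 1)) ≤ 2 ^ i := by
        rw [← pow_succ']
        exact Nat.pow_le_pow_right (by norm_num) (by omega)
      rw [e1]
      unfold dmul
      set p := 2 ^ (i - (j + 1)) with hp
      split_ifs <;> omega
    simp only [fF, Fm.iff, eval, h1, res_eq_one.2 le_rfl, mul_one]

theorem sq_val (i j : ℕ) (h : j < i) : nr ((val i j) ^ 2) = 2 * 2 ^ i - 2 ^ (i - j + 1) := by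
  rw [pow_two, nr_mul, nr_val]
  have e1 : 2 ^ (i - j) = 2 * 2 ^ (i - j - 1) := by
    rw [← pow_succ']
    congr 1
    omega
  have e2 : 2 * 2 ^ (i - j - 1) ≤ 2 ^ i := by
    rw [← pow_succ']
    exact Nat.pow_le_pow_right (by norm_num) (by omega)
  rw [pow_succ, e1]
  unfold dmul
  set p := 2 ^ (i - j - 1)
  split_ifs <;> omega

theorem eval_fG (i : ℕ) {j : ℕ} (hj : j + 1 < i) : eval (val i) (fG j) = 1 := by
  simp only [fG, eval, eval_pow]
  rw [res_eq_one, DC.le_iff, sq_val i (j + 1) hj, nr_val]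
  rw [show i - (j + 1) + 1 = i - j by omega]

theorem eval_fH (i : ℕ) (hi : 1 ≤ i) : ∀ j, j < i → eval (val i) (fH j) = 1 := by
  intro j
  induction j with
  | zero => intro _; exact eval_fF i hi 0 (by omega)
  | succ j ih =>
    intro hj
    simp only [fH, eval] at *
    rw [ih (by omega), eval_fF i hi (j + 1) (by omega), eval_fG i hj, mul_one, mul_one]

theorem pow_top (i : ℕ) (n : ℕ) (hn : 1 ≤ n) :
    nr ((el (2 * 2 ^ i - 1) (Nat.sub_le _ _) : DC (2 ^ i)) ^ n) = 2 * 2 ^ i + 1 - 2 * n := by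
  have hp : 1 ≤ 2 ^ i := Nat.one_le_pow _ _ (by norm_num)
  induction n with
  | zero => omega
  | succ n ih =>
    rcases Nat.eq_zero_or_pos n with h | h
    · subst h
      rw [zero_add, pow_one, nr_el]
      omega
    · rw [pow_succ, nr_mul, ih h, nr_el]
      unfold dmul
      split_ifs <;> omega

theorem eval_fB (i : ℕ) : eval (val (i + 1)) (((fG i).pow (2 ^ (i + 1) + 1)).neg) = 1 := by
  simp only [Fm.neg, eval, eval_pow, fG]
  have hp : 2 ≤ 2 ^ (i + 1) := by
    rw [pow_succ]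
    have : 1 ≤ 2 ^ i := Nat.one_le_pow _ _ (by norm_num)
    omega
  have h1 : res (val (i + 1) i) (val (i + 1) (i + 1) ^ 2) =
      el (2 * 2 ^ (i + 1) - 1) (Nat.sub_le _ _) := by
    refine DC.ext ?_
    rw [nr_res, nr_el, pow_two, nr_mul, nr_val, nr_val, Nat.sub_self, pow_zero,
      show i + 1 - i = 1 by omega, pow_one]
    have hp2 : 2 ^ (i + 1) % 2 = 0 := by rw [pow_succ]; omega
    unfold dmul
    split_ifs <;> omega
  rw [h1, res_eq_one, DC.le_iff, pow_top _ _ (by omega), DC.nr_bot]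
  omega

theorem eval_fE (i : ℕ) : eval (val (i + 1)) (fE i) = 1 := by
  have h1 := eval_fH (i + 1) (by omega) i (by omega)
  have h2 := eval_fF (i + 1) (by omega) (i + 1) le_rfl
  have h3 := eval_fB i
  unfold fE
  simp only [eval] at *
  rw [h1, h2, h3, mul_one, mul_one]

theorem not_taut (i : ℕ) : eval (val (i + 1)) (fPhi i) ≠ 1 := by
  simp only [fPhi, Fm.neg, eval, eval_pow, eval_fE, one_pow]
  intro h
  have h1 := res_eq_one.1 h
  rw [DC.le_iff, DC.nr_bot, DC.nr_one] at h1
  have : 1 ≤ 2 ^ (i + 1) := Nat.one_le_pow _ _ (by norm_num)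
  omega

/-- **For any `n` MTL-chains there is a common tautology which is refuted in an IMTL-chain with at
most `2 ^ (n + 2) + 1` elements.** -/
theorem finite_family (n : ℕ) (A : Fin n → Type u) [∀ s, MTLAlgebra (A s)]
    (tot : ∀ (s : Fin n) (x y : A s), x ≤ y ∨ y ≤ x) :
    ∃ i ≤ n, ∀ (s : Fin n) (v : ℕ → A s), eval v (fPhi i) = 1 := by
  by_contra hcon
  push Not at hcon
  choose s hs using fun i : Fin (n + 1) => hcon i.1 (by omega)
  obtain ⟨i, j, hne, he⟩ := Fintype.exists_ne_map_eq_of_card_lt s (by simp)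
  have key : ∀ i j : Fin (n + 1), i.1 < j.1 → s i = s j → False := by
    intro i j hij he
    obtain ⟨v, hv⟩ := hs i
    have hw : ∃ w : ℕ → A (s i), eval w (fPhi j.1) ≠ 1 := by
      rw [he]
      exact hs j
    obtain ⟨w, hw⟩ := hw
    rcases taut_or' (tot (s i)) hij v w with h | h
    · exact hv h
    · exact hw h
  rcases lt_or_gt_of_ne (fun h => hne (Fin.ext h) : i.1 ≠ j.1) with h | h
  · exact key i j h he
  · exact key j i h he.symm

end Pool.Agent.Y528.SCC
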