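import Pool.Agent.Y528.SCC.Fam

/-!
# The number of chains which are needed, and strong completeness for ΠMTL
-/

set_option autoImplicit false

namespace Pool.Agent.Y528.SCC

open Pool.Agent.H539R3.SC MTLAlgebra

universe u v w

/-- `Der L Γ φ`: the formula `φ` is derivable in the logic `L` from premises in `Γ`. -/
inductive Der (L : Logic) (Γ : Set Fm) : Fm → Prop
  | prem {φ : Fm} : φ ∈ Γ → Der L Γ φ
  | thm {φ : Fm} : Prov L φ → Der L Γ φ
  | mp {φ ψ : Fm} : Der L Γ (φ.imp ψ) → Der L Γ φ → Der L Γ ψ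

/-- The family `A` consists of `L`-chains, and the theorems of `L` are exactly the common
tautologies of these chains. -/
def CompleteFor (L : Logic) {ι : Type v} (A : ι → Type u) [∀ i, MTLAlgebra (A i)] : Prop :=
  (∀ i, (∀ x y : A i, x ≤ y ∨ y ≤ x) ∧ IsAlg L (A i)) ∧
    ∀ φ : Fm, Prov L φ ↔ ∀ (i : ι) (e : ℕ → A i), eval e φ = 1

/-- Strong single chain completeness of `L`: for some `L`-chain `A`, for every set `Γ` of premises,
`φ` is derivable from `Γ` if and only if every valuation into `A` which gives all members of `Γ` the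
value 1 gives `φ` the value 1. -/
def SSCC (L : Logic) : Prop :=
  ∃ (A : Type u) (_ : MTLAlgebra A), (∀ x y : A, x ≤ y ∨ y ≤ x) ∧ IsAlg L A ∧
    ∀ (Γ : Set Fm) (φ : Fm), Der L Γ φ ↔
      ∀ e : ℕ → A, (∀ ψ ∈ Γ, eval e ψ = 1) → eval e φ = 1

/-- soundness -/
theorem der_sound {L : Logic} {A : Type u} [MTLAlgebra A] (hA : IsAlg L A) {Γ : Set Fm} {φ : Fm}
    (h : Der L Γ φ) (e : ℕ → A) (he : ∀ ψ ∈ Γ, eval e ψ = 1) : eval e φ = 1 := by
  induction h with
  | prem h => exact he _ h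
  | thm h => exact sound h hA e
  | mp _ _ ih1 ih2 =>
    simp only [eval] at ih1
    rw [ih2] at ih1
    exact le_antisymm (le_one _) (res_eq_one.1 ih1)

/-- A formula which is not derivable is missing in some linear theory. -/
theorem exists_linear' {L : Logic} {Γ : Set Fm} {φ : Fm} (h : ¬ Der L Γ φ) :
    ∃ T : Set Fm, IsTheory L T ∧ Linear T ∧ Γ ⊆ T ∧ φ ∉ T := by
  have h0 : {ψ : Fm | Der L Γ ψ} ∈ {T : Set Fm | IsTheory L T ∧ φ ∉ T} :=
    ⟨⟨fun h => .thm h, fun h h' => .mp h h'⟩, h⟩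
  obtain ⟨T, hsub0, hmax⟩ := zorn_subset_nonempty {T : Set Fm | IsTheory L T ∧ φ ∉ T} (by
    intro c hc hchain hne
    refine ⟨⋃₀ c, ⟨⟨?_, ?_⟩, ?_⟩, fun s hs => Set.subset_sUnion_of_mem hs⟩
    · intro ψ hψ
      obtain ⟨S, hS⟩ := hne
      exact ⟨S, hS, (hc hS).1.prov hψ⟩
    · rintro ψ χ ⟨S, hS, h1⟩ ⟨S', hS', h2⟩
      rcases hchain.total hS hS' with hle | hle
      · exact ⟨S', hS', (hc hS').1.mp (hle h1) h2⟩
      · exact ⟨S, hS, (hc hS).1.mp h1 (hle h2)⟩
    · rintro ⟨S, hS, h1⟩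
      exact (hc hS).2 h1) _ h0
  obtain ⟨⟨hT, hφ⟩, hmax⟩ := hmax
  refine ⟨T, hT, ?_, fun ψ hψ => hsub0 (Der.prem hψ), hφ⟩
  have gen : ∀ b : Fm, b ∉ T → ∃ n : ℕ, (b.pow n).imp φ ∈ T := by
    intro b hb
    by_contra hcon
    push Not at hcon
    set T' : Set Fm := {ψ | ∃ n : ℕ, (b.pow n).imp ψ ∈ T} with hT'
    have hsub : T ⊆ T' := fun ψ hψ => ⟨0, hT.mp (hT.weak _ _) hψ⟩
    have hT'2 : IsTheory L T' := by
      refine ⟨fun h => hsub (hT.prov h), ?_⟩
      rintro ψ χ ⟨n, hn⟩ ⟨m, hm⟩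
      refine ⟨n + m, hT.trans (hT.pow_add b n m) ?_⟩
      exact hT.trans (hT.conj_mono hn hm) (hT.uncurry (hT.id _))
    have hmem : T' ∈ {T : Set Fm | IsTheory L T ∧ φ ∉ T} := by
      refine ⟨hT'2, ?_⟩
      rintro ⟨n, hn⟩
      exact hcon n hn
    have hbT' : b ∈ T' := ⟨1, hT.uncurry (hT.mp (hT.weak _ _) (hT.id _))⟩
    exact hb (hmax hmem hsub hbT')
  intro α β
  by_contra hcon
  push Not at hcon
  obtain ⟨n, hn⟩ := gen _ hcon.1
  obtain ⟨m, hm⟩ := gen _ hcon.2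
  exact hφ (hT.prelin_pow α β n m φ hn hm)

/-- Strong completeness with respect to chains. -/
theorem complete' {L : Logic} {Γ : Set Fm} {φ : Fm} (h : ¬ Der L Γ φ) :
    ∃ (A : Type) (_ : MTLAlgebra A), (∀ x y : A, x ≤ y ∨ y ≤ x) ∧ IsAlg L A ∧
      ∃ e : ℕ → A, (∀ ψ ∈ Γ, eval e ψ = 1) ∧ eval e φ ≠ 1 := by
  obtain ⟨T, hT, hl, hΓ, hφ⟩ := exists_linear' h
  refine ⟨Lind hT, lindAlg hl, (lindOrder hl).le_total, lind_isAlg hl,
    fun n => mkL hT (.var n), fun ψ hψ => ?_, ?_⟩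
  · rw [lind_eval hl]
    exact (lind_one hl).2 (hΓ hψ)
  · rw [lind_eval hl]
    exact fun h => hφ ((lind_one hl).1 h)

open Classical in
/-- ΠMTL enjoys strong single chain completeness. -/
theorem sscc_PiMTL : SSCC.{u} .PiMTL := by
  set ι : Type u := ULift.{u} {p : Set Fm × Fm // ¬ Der .PiMTL p.1 p.2} with hι
  choose A inst tot hA v hvΓ hv using
    fun i : ι => complete' (L := .PiMTL) i.down.2
  have h1 : ∀ i, (1 : A i) ≠ ⊥ := by
    intro i h
    refine hv i (le_antisymm (le_one _) ?_)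
    rw [h]; exact bot_le
  let _ : ∀ i, CCh (NZ (A i)) := fun i => nzCCh (tot i) (hA i) (h1 i)
  let _ : LinearOrder ι := linearOrderOfSTO (WellOrderingRel : ι → ι → Prop)
  have _ : WellFoundedLT ι := ⟨(WellOrderingRel.isWellOrder (α := ι)).wf⟩
  refine ⟨WithZero (LP fun i => NZ (A i)), inferInstance, fun x y => le_total x y, z_isAlg,
    fun Γ φ => ⟨fun h e he => der_sound z_isAlg h e he, fun h => ?_⟩⟩
  by_contra hφ
  set i : ι := ⟨⟨(Γ, φ), hφ⟩⟩ with hi
  -- the embedding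
  let e : A i → WithZero (LP fun i => NZ (A i)) := fun a =>
    if ha : a = ⊥ then 0 else ((LP.single i (toNZ a ha) : LP fun i => NZ (A i)) :
      WithZero (LP fun i => NZ (A i)))
  have e0 : e ⊥ = 0 := dif_pos rfl
  have e1 : ∀ {a : A i} (ha : a ≠ ⊥), e a = ((LP.single i (toNZ a ha) :
      LP fun i => NZ (A i)) : WithZero (LP fun i => NZ (A i))) := fun ha => dif_neg ha
  have ele : ∀ {a b : A i}, a ≤ b ↔ e a ≤ e b := by
    intro a b
    by_cases ha : a = ⊥
    · subst ha; rw [e0]; exact ⟨fun _ => bot_le, fun _ => bot_le⟩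
    by_cases hb : b = ⊥
    · subst hb
      rw [e0, e1 ha]
      exact ⟨fun h => absurd (le_bot_iff.1 h) ha,
        fun h => absurd (le_antisymm h bot_le) WithZero.coe_ne_zero⟩
    rw [e1 ha, e1 hb, WithZero.coe_le_coe, LP.single_le]
    exact Iff.rfl
  have emul : ∀ a b : A i, e (a * b) = e a * e b := by
    intro a b
    by_cases ha : a = ⊥
    · have : a * b = ⊥ := by rw [ha]; exact le_bot_iff.1 (mul_le_left _ _)
      rw [this, ha, e0, zero_mul]
    by_cases hb : b = ⊥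
    · have : a * b = ⊥ := by rw [hb]; exact le_bot_iff.1 (mul_le_right _ _)
      rw [this, hb, e0, mul_zero]
    rw [e1 ha, e1 hb, e1 (nz_mul (tot i) (hA i) ha hb), ← WithZero.coe_mul, ← LP.single_mul]
    rfl
  have eone : e 1 = 1 := by
    rw [e1 (h1 i)]
    have : toNZ 1 (h1 i) = (1 : NZ (A i)) := rfl
    rw [this, LP.single_one]
    rfl
  have eres : ∀ a b : A i, e (MTLAlgebra.res a b) = MTLAlgebra.res (e a) (e b) := by
    intro a b
    by_cases ha : a = ⊥
    · have : MTLAlgebra.res a b = 1 := res_eq_one.2 (by rw [ha]; exact bot_le)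
      rw [this, ha, e0, eone]
      rfl
    by_cases hb : b = ⊥
    · have : MTLAlgebra.res a b = ⊥ := by rw [hb]; exact nz_ng (tot i) (hA i) ha
      rw [this, hb, e0, e1 ha]
      rfl
    have hab : MTLAlgebra.res a b ≠ ⊥ := fun h => hb (le_bot_iff.1
      ((le_res.2 (mul_le_left b a)).trans h.le))
    rw [e1 ha, e1 hb, e1 hab]
    have : toNZ (MTLAlgebra.res a b) hab = CCh.rs (toNZ a ha) (toNZ b hb) := rfl
    rw [this, LP.single_rs]
    rfl
  have einf : ∀ a b : A i, e (a ⊓ b) = e a ⊓ e b := by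
    intro a b
    rcases tot i a b with h | h
    · rw [inf_eq_left.2 h, inf_eq_left.2 (ele.1 h)]
    · rw [inf_eq_right.2 h, inf_eq_right.2 (ele.1 h)]
  have eev : ∀ ψ : Fm, eval (fun n => e (v i n)) ψ = e (eval (v i) ψ) := by
    intro ψ
    induction ψ with
    | var n => rfl
    | bot => exact e0.symm
    | and φ ψ ih1 ih2 => simp only [eval, ih1, ih2, einf]
    | conj φ ψ ih1 ih2 => simp only [eval, ih1, ih2, emul]
    | imp φ ψ ih1 ih2 => simp only [eval, ih1, ih2, eres]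
  have h2 := h (fun n => e (v i n)) (fun ψ hψ => by
    rw [eev, hvΓ i ψ hψ, eone])
  rw [eev, ← eone] at h2
  exact hv i (le_antisymm (le_one _) (ele.2 h2.ge))

/-! ### the number of chains for MTL and IMTL -/

theorem dc_isAlg {L : Logic} (hL : L ≠ .PiMTL) (m : ℕ) : IsAlg L (DC m) := by
  cases L with
  | MTL => trivial
  | IMTL => exact DC.invol
  | PiMTL => exact absurd rfl hL

theorem dc_tot (m : ℕ) (x y : DC m) : x ≤ y ∨ y ≤ x := le_total x y

theorem dc_card (m : ℕ) : Fintype.card (DC m) = 2 * m + 1 := Fintype.card_fin _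

/-- a complete family of chains for MTL or IMTL is infinite -/
theorem infinite_of_complete {L : Logic} (hL : L ≠ .PiMTL) {ι : Type v} (A : ι → Type u)
    [∀ i, MTLAlgebra (A i)] (h : CompleteFor L A) : Infinite ι := by
  rw [← not_finite_iff_infinite]
  intro hfin
  obtain ⟨n, ⟨f⟩⟩ := Finite.exists_equiv_fin ι
  obtain ⟨i, -, hi⟩ := finite_family n (fun s => A (f.symm s)) fun s x y => (h.1 _).1 x y
  have h1 : Prov L (fPhi i) := (h.2 _).2 fun j e => by
    obtain ⟨s, rfl⟩ := f.symm.surjective j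
    exact hi s e
  exact not_taut i (sound h1 (dc_isAlg hL _) _)

deriving instance Encodable for Pool.Agent.H539R3.SC.Fm

/-- there is a countable complete family -/
theorem countable_complete (L : Logic) : ∃ (ι : Type) (_ : Countable ι) (A : ι → Type)
    (_ : ∀ i, MTLAlgebra (A i)), CompleteFor L A := by
  choose A inst tot hA v hv using fun i : {φ : Fm // ¬ Prov L φ} => complete (L := L) i.2
  refine ⟨{φ : Fm // ¬ Prov L φ}, inferInstance, A, inst, fun i => ⟨tot i, hA i⟩, fun φ =>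
    ⟨fun h i e => sound h (hA i) e, fun h => ?_⟩⟩
  by_contra hφ
  exact hv ⟨φ, hφ⟩ (h ⟨φ, hφ⟩ _)

/-- the theorem on `n` chains -/
theorem n_chains (n : ℕ) (A : Fin n → Type u) [∀ s, MTLAlgebra (A s)]
    (tot : ∀ (s : Fin n) (x y : A s), x ≤ y ∨ y ≤ x) :
    ∃ φ : Fm, (∀ (s : Fin n) (e : ℕ → A s), eval e φ = 1) ∧
      ∃ (B : Type) (_ : MTLAlgebra B) (_ : Fintype B), (∀ x y : B, x ≤ y ∨ y ≤ x) ∧
        IsAlg .IMTL B ∧ Fintype.card B ≤ 2 ^ (n + 2) + 1 ∧ ∃ e : ℕ → B, eval e φ ≠ 1 := by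
  obtain ⟨i, hi, h⟩ := finite_family n A tot
  refine ⟨fPhi i, h, DC (2 ^ (i + 1)), inferInstance, inferInstance, dc_tot _, DC.invol, ?_,
    val (i + 1), not_taut i⟩
  rw [dc_card, ← pow_succ']
  have : 2 ^ (i + 1 + 1) ≤ 2 ^ (n + 2) := Nat.pow_le_pow_right (by norm_num) (by omega)
  omega

end Pool.Agent.Y528.SCC
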